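import Pool.Agent.LRY.Stmts

/-!
# Row CPQ of squad LRY: the number of normalised parameters
-/

set_option autoImplicit false

namespace Pool.Agent.LRY.H90

open Pool.Agent.LRY Pool.Agent.LRG.E

theorem ex_inj {r₁ r₂ : ℕ} {k l : Fa r₁ r₂} (h : ex k = ex l) : k = l := by
  rcases k with i | i <;> rcases l with j | j
  · have : i.1 = j.1 := h
    rw [Fin.ext this]
  · have h1 : i.1 = r₁ + j.1 := h
    have := i.2
    omega
  · have h1 : r₁ + i.1 = j.1 := h
    have := j.2
    omega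
  · have h1 : r₁ + i.1 = r₁ + j.1 := h
    rw [Fin.ext (Nat.add_left_cancel h1)]

/-- the factors without a free parameter -/
def Sp (r₁ : ℕ) {r₂ : ℕ} (k : Fa r₁ r₂) : Prop := ex k = 0 ∨ (r₁ = 0 ∧ ex k = 1)

instance (r₁ : ℕ) {r₂ : ℕ} (k : Fa r₁ r₂) : Decidable (Sp r₁ k) := by
  unfold Sp
  infer_instance

/-- the ranges of the parameters `a k` -/
noncomputable def AA (r₁ r₂ N : ℕ) (k : Fa r₁ r₂) : Finset ℤ :=
  if Sp r₁ k then {3 * (ex k : ℤ) * N} else
    Finset.Icc (3 * (ex k : ℤ) * N) ((3 * (ex k : ℤ) + 1) * N)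

theorem mem_AA {r₁ r₂ N : ℕ} {k : Fa r₁ r₂} {z : ℤ} (h : z ∈ AA r₁ r₂ N k) :
    3 * (ex k : ℤ) * N ≤ z ∧ z ≤ (3 * (ex k : ℤ) + 1) * N := by
  unfold AA at h
  split_ifs at h with hs
  · rw [Finset.mem_singleton] at h
    rw [h]
    have : (0 : ℤ) ≤ N := Int.natCast_nonneg N
    constructor
    · exact le_rfl
    · linarith
  · exact Finset.mem_Icc.mp h

theorem card_AA (r₁ r₂ N : ℕ) (k : Fa r₁ r₂) :
    (if Sp r₁ k then 1 else N) ≤ (AA r₁ r₂ N k).card := by
  unfold AA
  split_ifs with hs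
  · simp
  · rw [Int.card_Icc]
    have e : (3 * (ex k : ℤ) + 1) * N + 1 - 3 * (ex k : ℤ) * N = ((N + 1 : ℕ) : ℤ) := by
      push_cast
      ring
    rw [e, Int.toNat_natCast]
    omega

theorem card_le_one (r₁ r₂ t : ℕ) :
    (Finset.univ.filter (fun k : Fa r₁ r₂ => ex k = t)).card ≤ 1 := by
  rw [Finset.card_le_one]
  intro k hk l hl
  exact ex_inj ((Finset.mem_filter.mp hk).2.trans (Finset.mem_filter.mp hl).2.symm)

theorem card_Sp (r₁ r₂ : ℕ) : (Finset.univ.filter (fun k : Fa r₁ r₂ => Sp r₁ k)).card ≤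
    if r₁ = 0 then 2 else 1 := by
  split_ifs with h
  · have h1 : Finset.univ.filter (fun k : Fa r₁ r₂ => Sp r₁ k) ⊆
        Finset.univ.filter (fun k : Fa r₁ r₂ => ex k = 0) ∪
        Finset.univ.filter (fun k : Fa r₁ r₂ => ex k = 1) := by
      intro k hk
      rw [Finset.mem_union, Finset.mem_filter, Finset.mem_filter]
      rcases (Finset.mem_filter.mp hk).2 with h2 | h2
      · exact Or.inl ⟨Finset.mem_univ _, h2⟩
      · exact Or.inr ⟨Finset.mem_univ _, h2.2⟩
    have h2 := Finset.card_le_card h1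
    have h3 := Finset.card_union_le (Finset.univ.filter (fun k : Fa r₁ r₂ => ex k = 0))
      (Finset.univ.filter (fun k : Fa r₁ r₂ => ex k = 1))
    have h4 := card_le_one r₁ r₂ 0
    have h5 := card_le_one r₁ r₂ 1
    omega
  · have h1 : Finset.univ.filter (fun k : Fa r₁ r₂ => Sp r₁ k) ⊆
        Finset.univ.filter (fun k : Fa r₁ r₂ => ex k = 0) := by
      intro k hk
      rw [Finset.mem_filter]
      rcases (Finset.mem_filter.mp hk).2 with h2 | h2
      · exact ⟨Finset.mem_univ _, h2⟩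
      · exact absurd h2.1 h
    exact (Finset.card_le_card h1).trans (card_le_one r₁ r₂ 0)

theorem card_free (r₁ r₂ : ℕ) : r₁ + r₂ ≤
    (Finset.univ.filter (fun k : Fa r₁ r₂ => ¬ Sp r₁ k)).card + if r₁ = 0 then 2 else 1 := by
  have h1 := Finset.card_filter_add_card_filter_not (s := (Finset.univ : Finset (Fa r₁ r₂)))
    (fun k => Sp r₁ k)
  have h2 := card_Sp r₁ r₂
  have h3 : (Finset.univ : Finset (Fa r₁ r₂)).card = r₁ + r₂ := by
    rw [Finset.card_univ, Fintype.card_sum, Fintype.card_fin, Fintype.card_fin]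
  omega

theorem cpq : CpqStmt := by
  intro r₁ r₂ N h3 hN
  refine ⟨Fintype.piFinset (AA r₁ r₂ N) ×ˢ
    Fintype.piFinset (fun _ : Fin r₂ => Finset.Icc ((N : ℤ) ^ 2) (4 * (N : ℤ) ^ 2)), ?_, ?_⟩
  · rw [Finset.card_product, Fintype.card_piFinset, Fintype.card_piFinset]
    have h1 : N ^ (r₁ + r₂ - (if r₁ = 0 then 2 else 1)) ≤ ∏ k, (AA r₁ r₂ N k).card := by
      calc N ^ (r₁ + r₂ - (if r₁ = 0 then 2 else 1)) ≤
          N ^ (Finset.univ.filter (fun k : Fa r₁ r₂ => ¬ Sp r₁ k)).card := by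
            apply Nat.pow_le_pow_right hN
            have := card_free r₁ r₂
            omega
        _ = ∏ k : Fa r₁ r₂, (if Sp r₁ k then 1 else N) := by
            rw [Finset.prod_ite, Finset.prod_const, Finset.prod_const, one_pow, one_mul]
        _ ≤ _ := Finset.prod_le_prod' (fun k _ => card_AA r₁ r₂ N k)
    have h2 : N ^ (2 * r₂) ≤ ∏ _j : Fin r₂, (Finset.Icc ((N : ℤ) ^ 2) (4 * (N : ℤ) ^ 2)).card := by
      rw [Finset.prod_const, Finset.card_univ, Fintype.card_fin, pow_mul]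
      apply Nat.pow_le_pow_left
      rw [Int.card_Icc]
      have e : 4 * (N : ℤ) ^ 2 + 1 - (N : ℤ) ^ 2 = ((3 * N ^ 2 + 1 : ℕ) : ℤ) := by
        push_cast
        ring
      rw [e, Int.toNat_natCast]
      have : 0 ≤ N ^ 2 := Nat.zero_le _
      omega
    calc N ^ kap r₁ r₂ = N ^ (r₁ + r₂ - (if r₁ = 0 then 2 else 1)) * N ^ (2 * r₂) := by
          rw [← pow_add]
          congr 1
          unfold kap
          split_ifs with h <;> omega
      _ ≤ _ := Nat.mul_le_mul h1 h2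
  · intro s hs
    rw [Finset.mem_product, Fintype.mem_piFinset, Fintype.mem_piFinset] at hs
    obtain ⟨hs1, hs2⟩ := hs
    refine ⟨⟨fun k => (mem_AA (hs1 k)).1, fun k => (mem_AA (hs1 k)).2,
      fun j => (Finset.mem_Icc.mp (hs2 j)).1, fun j => (Finset.mem_Icc.mp (hs2 j)).2⟩, ?_, ?_⟩
    · intro _ k hk
      have h1 := hs1 k
      unfold AA at h1
      rw [if_pos (show Sp r₁ k from Or.inl hk), Finset.mem_singleton, hk] at h1
      simpa using h1
    · intro hr k hk
      have h1 := hs1 k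
      unfold AA at h1
      rw [if_pos (show Sp r₁ k by unfold Sp; omega), Finset.mem_singleton] at h1
      exact h1

end Pool.Agent.LRY.H90
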